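import Pool.Agent.H90.EH.Targets

set_option autoImplicit false

namespace Pool.Agent.H87.EH
open Finset Pool.Agent.H90.EH
open scoped Classical

theorem pf_CRD : T_CRD := by
  intro V _ _ A B h
  have h1 : LinearIndepOn ℚ id (B : Set V) := by
    rw [linearIndepOn_finset_iff]
    intro f hf
    exact h.2.1 f hf
  have h2 := finrank_span_finset_eq_card h1
  unfold rk
  rw [h.sp]
  exact h2.symm

end Pool.Agent.H87.EH
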