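import Pool.Agent.H90.EH.Targets

set_option autoImplicit false

namespace Pool.Agent.H87.EH
open Finset Pool.Agent.H90.EH
open scoped Classical

lemma dir_min {ι : Type} (T : Finset ι) (P : ι → ℚ → Prop)
    (h : ∀ t ∈ T, ∃ δ : ℚ, 0 < δ ∧ ∀ s, 0 < s → s < δ → P t s) :
    ∃ δ : ℚ, 0 < δ ∧ ∀ s, 0 < s → s < δ → ∀ t ∈ T, P t s := by
  induction T using Finset.induction_on with
  | empty => exact ⟨1, one_pos, fun s _ _ t ht => absurd ht (notMem_empty t)⟩
  | insert a T ha ih =>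
    obtain ⟨δ, hδ, h1⟩ := ih fun t ht => h t (mem_insert_of_mem ht)
    obtain ⟨δ', hδ', h2⟩ := h a (mem_insert_self a T)
    refine ⟨min δ δ', lt_min hδ hδ', fun s hs hs' t ht => ?_⟩
    rcases mem_insert.1 ht with rfl | ht
    · exact h2 s hs (hs'.trans_le (min_le_right _ _))
    · exact h1 s hs (hs'.trans_le (min_le_left _ _)) t ht

lemma dir_sign {x K : ℚ} (hx : x ≠ 0) :
    ∃ δ : ℚ, 0 < δ ∧ ∀ s, 0 < s → s < δ → (0 < x + s * K ↔ 0 < x) := by
  refine ⟨|x| / (|K| + 1), by positivity, fun s hs hs' => ?_⟩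
  have h1 : s * (|K| + 1) < |x| := by
    rwa [lt_div_iff₀ (by positivity)] at hs'
  have h2 : |s * K| < |x| := by
    rw [abs_mul, abs_of_pos hs]
    nlinarith [abs_nonneg K]
  have h3 := abs_lt.1 h2
  constructor
  · intro h4
    by_contra h5
    have h6 : x ≤ 0 := not_lt.1 h5
    rw [abs_of_nonpos h6] at h3
    linarith [h3.2]
  · intro h4
    rw [abs_of_pos h4] at h3
    linarith [h3.1]

lemma dir_span {V : Type} [AddCommGroup V] [Module ℚ V] {A AF : Finset V} {k p : ℕ}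
    {v : Fin k → Fin p → V} (hO : Orb A AF k p v) {x : V} (hx : x ∈ Sp A) :
    ∃ e : Fin k → Fin p → ℚ, x - ∑ j, ∑ i, e j i • v j i ∈ Sp AF := by
  unfold Sp at hx
  induction hx using Submodule.span_induction with
  | mem a ha => exact hO.span a ha
  | zero => exact ⟨fun _ _ => 0, by simp⟩
  | add x y _ _ hx hy =>
    obtain ⟨e, he⟩ := hx
    obtain ⟨f, hf⟩ := hy
    refine ⟨fun j i => e j i + f j i, ?_⟩
    have := Submodule.add_mem _ he hf
    have e1 : x - ∑ j, ∑ i, e j i • v j i + (y - ∑ j, ∑ i, f j i • v j i) =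
        x + y - ∑ j, ∑ i, (e j i + f j i) • v j i := by
      simp only [add_smul, sum_add_distrib]
      abel
    rwa [e1] at this
  | smul r x _ hx =>
    obtain ⟨e, he⟩ := hx
    refine ⟨fun j i => r * e j i, ?_⟩
    have := Submodule.smul_mem _ r he
    have e1 : r • (x - ∑ j, ∑ i, e j i • v j i) = r • x - ∑ j, ∑ i, (r * e j i) • v j i := by
      simp only [mul_smul, ← smul_sum, smul_sub]
    rwa [e1] at this

theorem pf_DIR (h1 : T_GQ0) (h2 : T_EPS) (h3 : T_EXT) (h4 : T_GBI) (h5 : T_GBC) : T_DIR := by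
  intro V _ _ A AF k p v hp hO
  obtain ⟨c, hc, hqF⟩ := h1 V AF
  obtain ⟨c', hc', hη⟩ := h1 V A
  set qF : V := ∑ a ∈ AF, c a • a with hqFd
  set η : V := ∑ a ∈ A, c' a • a with hηd
  have hqFc : qF ∈ Cone AF := ⟨c, fun a ha => (hc a ha).le, rfl⟩
  have hηc : η ∈ Cone A := ⟨c', fun a ha => (hc' a ha).le, rfl⟩
  have hqFA : qF ∈ Cone A := cone_mono (fun a ha => cone_mem (hO.sub ha)) hqFc
  obtain ⟨e, he⟩ := dir_span hO hη.1
  set ηF : V := η - ∑ j, ∑ i, e j i • v j i with hηF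
  obtain ⟨ε₀, hε₀, hE⟩ := h2 V A qF η (cone_sp hqFA) hη
  set K : Finset V → (Fin k → Fin p) → V → ℚ := fun BF i b =>
    co BF (ηF + ∑ j, e j (i j) • ∑ i', v j i') b with hK
  obtain ⟨δ, hδ, hS⟩ := dir_min (AF.powerset ×ˢ ((univ : Finset (Fin k → Fin p)) ×ˢ AF))
    (fun t s => IsB AF t.1 → t.2.2 ∈ t.1 →
      (0 < co t.1 qF t.2.2 + s * K t.1 t.2.1 t.2.2 ↔ 0 < co t.1 qF t.2.2)) (by
      rintro ⟨BF, i, b⟩ -
      by_cases hB : IsB AF BF ∧ b ∈ BF
      · obtain ⟨δ, hδ, h⟩ := dir_sign (K := K BF i b) (hqF.2 BF hB.1 b hB.2)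
        exact ⟨δ, hδ, fun s hs hs' _ _ => h s hs hs'⟩
      · exact ⟨1, one_pos, fun s _ _ h6 h7 => absurd ⟨h6, h7⟩ hB⟩)
  obtain ⟨s, hs0, hs1⟩ := exists_between (lt_min hε₀ hδ)
  have hsε : s < ε₀ := hs1.trans_le (min_le_left _ _)
  have hsδ : s < δ := hs1.trans_le (min_le_right _ _)
  have hGQ := hE s hs0 hsε
  have hq : qF + s • η = (qF + s • ηF) + ∑ j, ∑ i', (s * e j i') • v j i' := by
    rw [hηF, smul_sub]
    simp only [mul_smul, ← smul_sum]
    abel
  have hxF : qF + s • ηF ∈ Sp AF :=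
    Submodule.add_mem _ (cone_sp hqFc) (Submodule.smul_mem _ _ he)
  have hsumF : ∀ j, ∑ i', v j i' ∈ Sp AF := fun j => cone_sp (hO.sum j)
  have key : ∀ BF, IsB AF BF → ∀ i : Fin k → Fin p,
      (∀ b ∈ BF, co (GB BF v i) (qF + s • η) b = co BF qF b + s * K BF i b) ∧
      ∀ j i', i' ≠ i j → co (GB BF v i) (qF + s • η) (v j i') = s * (e j i' - e j (i j)) := by
    intro BF hBF i
    obtain ⟨h6, h7⟩ := h5 V A AF BF k p v i (fun j i' => s * e j i') (qF + s • ηF) hp hO hBF hxF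
    rw [← hq] at h6 h7
    constructor
    · intro b hb
      rw [h7 b hb]
      have e1 : qF + s • ηF + ∑ j, (s * e j (i j)) • ∑ i', v j i' =
          qF + s • (ηF + ∑ j, e j (i j) • ∑ i', v j i') := by
        rw [smul_add, smul_sum]
        simp only [mul_smul]
        abel
      have hB1 : ηF + ∑ j, e j (i j) • ∑ i', v j i' ∈ Sp BF := by
        rw [← hBF.sp]
        exact Submodule.add_mem _ he (Submodule.sum_mem _ fun j _ =>
          Submodule.smul_mem _ _ (hsumF j))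
      have hB2 : qF ∈ Sp BF := by
        rw [← hBF.sp]
        exact cone_sp hqFc
      rw [e1, co_add hBF.2.1 hB2 (Submodule.smul_mem _ _ hB1) hb, co_smul hBF.2.1 hB1 s hb]
    · intro j i' hi'
      rw [h6 j i' hi']
      ring
  refine ⟨qF, qF + s • η, e, hqFc, hqF, cone_add hqFA (cone_smul hηc hs0.le), hGQ, ?_, ?_⟩
  · intro j i₁ i₂ h8
    by_contra hne
    obtain ⟨BF, -, hBF⟩ := h3 V AF ∅ (empty_subset _) (fun c _ b hb => absurd hb (notMem_empty b))
    have h9 := (key BF hBF (fun _ => i₂)).2 j i₁ hne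
    rw [h8, sub_self, mul_zero] at h9
    refine hGQ.2 (GB BF v (fun _ => i₂)) (h4 V A AF BF k p v _ hp hO hBF) (v j i₁) ?_ h9
    exact mem_union_right _ (mem_image.2 ⟨(j, i₁), by simpa using hne, rfl⟩)
  · intro BF hBF i
    obtain ⟨h10, h11⟩ := key BF hBF i
    refine ⟨fun b hb => ?_, fun j i' hi' => ?_⟩
    · rw [h10 b hb]
      exact hS s hs0 hsδ (BF, i, b) (mem_product.2 ⟨mem_powerset.2 hBF.1,
        mem_product.2 ⟨mem_univ _, hBF.1 hb⟩⟩) hBF hb
    · rw [h11 j i' hi', mul_pos_iff_of_pos_left hs0, sub_pos]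

end Pool.Agent.H87.EH
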