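import Pool.Agent.H90.EH.Targets

set_option autoImplicit false

namespace Pool.Agent.H87.EH
open Finset Pool.Agent.H90.EH
open scoped Classical

section
variable {V : Type} [AddCommGroup V] [Module ℚ V]

/-- Sums over the good basis. -/
lemma gdt_sum (h2 : T_INJ) {A AF BF : Finset V} {k p : ℕ} {v : Fin k → Fin p → V}
    (i : Fin k → Fin p) (hp : 2 ≤ p) (hO : Orb A AF k p v) (hBF : BF ⊆ AF) (f : V → ℚ) :
    ∑ b ∈ GB BF v i, f b = ∑ b ∈ BF, f b +
      ∑ x ∈ univ.filter (fun x : Fin k × Fin p => x.2 ≠ i x.1), f (v x.1 x.2) := by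
  obtain ⟨hinj, hout⟩ := h2 V A AF k p v hp hO
  unfold GB
  rw [sum_union]
  · congr 1
    rw [sum_image]
    rintro ⟨a, b⟩ - ⟨c, d⟩ - h
    obtain ⟨h3, h4⟩ := hinj a b c d h
    exact Prod.ext h3 h4
  · rw [disjoint_left]
    intro b hb hb'
    obtain ⟨x, -, rfl⟩ := mem_image.1 hb'
    exact hout x.1 x.2 (sub_Sp (hBF hb))

lemma gdt_co (h2 : T_INJ) (h4 : T_GBC) {A AF BF : Finset V} {k p : ℕ} {v : Fin k → Fin p → V}
    (i : Fin k → Fin p) (hp : 2 ≤ p) (hO : Orb A AF k p v) (hBF : IsB AF BF) (w₀ w : V → ℚ)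
    (hw : ∀ a ∈ AF, w a = w₀ a) (e : Fin k → Fin p → ℚ) (xF : V) (hx : xF ∈ Sp AF) :
    ∑ b ∈ GB BF v i, co (GB BF v i) (xF + ∑ j, ∑ i', e j i' • v j i') b * w b =
      ∑ b ∈ BF, co BF (xF + ∑ j, e j (i j) • ∑ i', v j i') b * w₀ b +
      ∑ x ∈ univ.filter (fun x : Fin k × Fin p => x.2 ≠ i x.1),
        (e x.1 x.2 - e x.1 (i x.1)) * w (v x.1 x.2) := by
  obtain ⟨h5, h6⟩ := h4 V A AF BF k p v i e xF hp hO hBF hx
  rw [gdt_sum h2 i hp hO hBF.1]
  congr 1
  · exact sum_congr rfl fun b hb => by rw [h6 b hb, hw b (hBF.1 hb)]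
  · refine sum_congr rfl fun x hx => ?_
    rw [h5 x.1 x.2 (mem_filter.1 hx).2]

end

theorem pf_GDT (h1 : T_HTS) (h2 : T_INJ) (h3 : T_GBI) (h4 : T_GBC) : T_GDT := by
  intro V _ _ A AF k p v hp hO
  set A₁ : Finset V := AF ∪ (univ : Finset (Fin k × Fin p)).image (fun x => v x.1 x.2) with hA₁
  have hs1 : AF ⊆ A₁ := subset_union_left
  have hs2 : A₁ ⊆ A := by
    apply union_subset hO.sub
    intro a ha
    obtain ⟨x, -, rfl⟩ := mem_image.1 ha
    exact hO.mem _ _
  obtain ⟨w₀, hw₀, hC⟩ := h1 V A AF A₁ hs1 hs2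
  set g : Finset V → Fin k → ℚ := fun BF j => |∑ b ∈ BF, co BF (∑ i', v j i') b * w₀ b| with hg
  set C : ℚ := 1 + ∑ BF ∈ AF.powerset, ∑ j, g BF j with hCdef
  have hg0 : ∀ BF j, 0 ≤ g BF j := fun BF j => abs_nonneg _
  have hC0 : 0 < C := by
    have : 0 ≤ ∑ BF ∈ AF.powerset, ∑ j, g BF j :=
      sum_nonneg fun BF _ => sum_nonneg fun j _ => hg0 BF j
    linarith
  have hCg : ∀ BF, BF ⊆ AF → ∀ j, g BF j < C := by
    intro BF hBF j
    have e1 : g BF j ≤ ∑ j, g BF j := single_le_sum (fun j _ => hg0 BF j) (mem_univ j)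
    have e2 : ∑ j, g BF j ≤ ∑ BF ∈ AF.powerset, ∑ j, g BF j :=
      single_le_sum (f := fun BF => ∑ j, g BF j) (fun BF _ => sum_nonneg fun j _ => hg0 BF j)
        (mem_powerset.2 hBF)
    linarith
  obtain ⟨w, hw, hwF, hwC, hwL⟩ := hC C
  refine ⟨w₀, w, hw₀, hw, fun BF hBF i => ?_⟩
  unfold Tri at hBF ⊢
  obtain ⟨hsub, hB, hred⟩ := mem_filter.1 hBF
  have hGB := h3 V A AF BF k p v i hp hO hB
  refine mem_filter.2 ⟨mem_powerset.2 hGB.1, hGB, fun a ha haB => ?_⟩
  have hvout := (h2 V A AF k p v hp hO).2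
  have hwv : ∀ j i', C ≤ w (v j i') := by
    intro j i'
    apply hwC
    · exact mem_union_right _ (mem_image.2 ⟨(j, i'), mem_univ _, rfl⟩)
    · intro h
      exact hvout j i' (sub_Sp h)
  by_cases haF : a ∈ AF
  · have haBF : a ∉ BF := fun h => haB (mem_union_left _ h)
    have h5 := gdt_co h2 h4 i hp hO hB w₀ w hwF (fun _ _ => 0) a (sub_Sp haF)
    simp only [zero_smul, sum_const_zero, add_zero, sub_zero, zero_mul] at h5
    rw [h5, hwF a haF]
    exact hred a haF haBF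
  · by_cases haA : a ∈ A₁
    · rcases mem_union.1 haA with h | h
      · exact absurd h haF
      obtain ⟨⟨j₀, i₀⟩, -, rfl⟩ := mem_image.1 h
      simp only at haB haF ha haA ⊢
      have hi₀ : i₀ = i j₀ := by
        by_contra hne
        exact haB (mem_union_right _ (mem_image.2 ⟨(j₀, i₀), by simpa using hne, rfl⟩))
      have h5 := gdt_co h2 h4 i hp hO hB w₀ w hwF
        (fun j i' => if j = j₀ then (if i' = i₀ then 1 else 0) else 0) 0 (Submodule.zero_mem _)
      have e1 : (0 : V) + ∑ j, ∑ i', (if j = j₀ then (if i' = i₀ then (1 : ℚ) else 0) else 0) •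
          v j i' = v j₀ i₀ := by
        rw [zero_add, Finset.sum_eq_single j₀]
        · simp
        · intro j _ hj
          simp [hj]
        · intro h
          exact absurd (mem_univ _) h
      have e2 : (0 : V) + ∑ j, (if j = j₀ then (if i j = i₀ then (1 : ℚ) else 0) else 0) •
          ∑ i', v j i' = ∑ i', v j₀ i' := by
        rw [zero_add, Finset.sum_eq_single j₀]
        · simp [hi₀]
        · intro j _ hj
          simp [hj]
        · intro h
          exact absurd (mem_univ _) h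
      rw [e1, e2] at h5
      rw [h5]
      have h6 : ∑ b ∈ BF, co BF (∑ i', v j₀ i') b * w₀ b < C :=
        (le_abs_self _).trans_lt (hCg BF (mem_powerset.1 hsub) j₀)
      have h7 : ∑ x ∈ univ.filter (fun x : Fin k × Fin p => x.2 ≠ i x.1),
          ((if x.1 = j₀ then (if x.2 = i₀ then (1 : ℚ) else 0) else 0) -
            (if x.1 = j₀ then (if i x.1 = i₀ then (1 : ℚ) else 0) else 0)) *
              w (v x.1 x.2) ≤ 0 := by
        apply sum_nonpos
        rintro ⟨j, i'⟩ hx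
        have hx2 : i' ≠ i j := (mem_filter.1 hx).2
        have hwpos : 0 < w (v j i') := hC0.trans_le (hwv j i')
        simp only
        by_cases hj : j = j₀
        · subst hj
          rw [if_pos rfl, if_pos rfl, if_neg (by rw [hi₀]; exact hx2), if_pos hi₀.symm]
          linarith
        · rw [if_neg hj, if_neg hj]
          simp
      have h8 := hwv j₀ i₀
      linarith
    · apply hwL (GB BF v i) _ hGB.2.1 a ha haA (hGB.2.2 a ha)
      apply union_subset ((mem_powerset.1 hsub).trans hs1)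
      intro b hb
      obtain ⟨x, -, rfl⟩ := mem_image.1 hb
      exact mem_union_right _ (mem_image.2 ⟨x, mem_univ _, rfl⟩)

end Pool.Agent.H87.EH
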